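import Pool.Agent.H844.Stab.FGen

/-!
# The algebraic classes on all powers of a variety are finitely generated up to a factor

`W` is a Weil cohomology theory with coefficient field `K` (any field of characteristic zero) on a
class of smooth proper varieties over a field `k` of any characteristic, closed under products.
Algebraic classes are the `K`-linear combinations of the classes of algebraic cycles (`IsAlg`), and
`pX X X n` is the product of `n + 1` copies of `X`. It is assumed that the sign operator of `X`
(the operator `(-1)^i` on `H^i(X)`) is algebraic (`SignAlg`); this is known for abelian
varieties, and for all varieties over an algebraic closure of a finite field (Katz, Messing).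

A class on `X^(n+1)` is generated by `X^(N+1)` (`GenBy W X N n`) if it is a polynomial in
pull-backs of algebraic classes on `X^(N+1)` under morphisms `X^(n+1) → X^(N+1)` given by
coordinates.

**Theorem.** There is a number `N` such that for every `n` there is a nonzero class `τ` on a power
of `X`, generated by `X^(N+1)`, with the following property: a class `x` on `X^(n+1)` is algebraic
up to a factor (the external product `σ × x` is algebraic for some algebraic `σ ≠ 0` on a power of
`X`) if and only if `τ × x` is generated by `X^(N+1)`. In particular `τ × x` is generated by
`X^(N+1)` for every algebraic class `x` on `X^(n+1)`. If `K` is algebraically closed, these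
classes `x` are exactly the classes fixed by the group `G` of all linear automorphisms of `H(X)`
that fix all algebraic classes on all powers of `X` (`FixedByStab`).

No standard conjecture is used except the algebraicity of the sign operator. If homological and
numerical equivalence coincide on the powers of `X`, all these classes `x` are algebraic.
-/

open CategoryTheory AlgebraicGeometry

universe u v

namespace Pool.Agent.Results.MP_f569db_ag.FinitelyGeneratedUpToAFactor

open Pool.Agent.H914 Pool.Agent.H914.VarClass Pool.Agent.H914.VarClass.Obj
  Pool.Agent.H914.WeilCohomology Pool.Agent.R908 Pool.Agent.H281R3.HT Pool.Agent.H844.Stab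

variable {k : Type u} [Field k] {𝒱 : VarClass k} {ops : CycleOps 𝒱}

/-- **The algebraic classes on all powers of a variety are finitely generated up to a factor, and
so are the classes fixed by their stabiliser.** -/
theorem result (W : WeilCohomology.{u, v} ops) (X : 𝒱.Obj) (hne : Nontrivial (W.H X))
    (hX : SignAlg W X) :
    ∃ N, ∀ n, ∃ (m : ℕ) (τ : W.H (pX X X m)), τ ≠ 0 ∧ GenBy W X N m τ ∧
      ∀ x : W.H (pX X X n),
        (AlgUpToPower W X n x ↔ GenBy W X N (m + 1 + n) (crossX W τ x)) ∧
        (IsAlgClosed W.K → (AlgUpToPower W X n x ↔ FixedByStab W X n x)) :=
  exists_generation' hX

end Pool.Agent.Results.MP_f569db_ag.FinitelyGeneratedUpToAFactor
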