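import Pool.Agent.H838.DiscMain

/-!
# Homological and numerical equivalence on all powers, from one codimension modulo one prime

Let `X` be a smooth projective variety of dimension `n ≥ 1` over an algebraically closed field of
characteristic zero (so that the Hodge index theorem holds for the powers of `X`), and `D` an ample
divisor. Integral cycles on `X × X` act on the integral cohomology `T` of `X` modulo torsion. For a
prime number `ℓ` and a codimension `p` consider the statement

`D(ℓ, p)`: an integral cycle of codimension `p` on `X × X`, all of whose intersection numbers with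
integral cycles of the complementary codimension are divisible by `ℓ`, acts as zero on `T / ℓ T`.

(This is a statement on finite vector spaces over the field with `ℓ` elements: the groups of the
algebraic classes modulo `ℓ` in codimensions `p` and `2n - p` on `X × X`, and the intersection form.)
We show that the following are equivalent.

1. Homological and numerical equivalence coincide (with rational coefficients) on all powers of `X`.
2. They coincide on `X × X`.
3. `D(ℓ, p)` holds for almost all prime numbers `ℓ` and all `p`.
4. `D(ℓ, n + 1)` holds for ONE prime number `ℓ > n + 1` for which hard Lefschetz holds for `T ⊗ ℤ_(ℓ)`.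
5. There is one prime number `ℓ`, of any size, for which hard Lefschetz holds for `T ⊗ ℤ_(ℓ)` and
   `D(ℓ, n + c)` holds for `1 ≤ c ≤ n`.

So a failure of the standard conjecture D in any codimension on any power `X ^ m` is visible in the
single codimension `n + 1` on `X ^ 2`, and in the intersection numbers modulo each prime number `ℓ`
with finitely many exceptions.
-/

open Pool.Agent.H914 Pool.Agent.H838

universe u v

namespace Pool.Agent.Results.MP_f569db_ag.OneCodimensionOnePrime

/-- The equivalence of the five statements. The hypothesis `hH` is the Hodge index theorem for the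
powers of `X` (a theorem in characteristic zero), the hypothesis `hE` is the existence of integral
structures at infinitely many prime numbers `ℓ` (the singular cohomology `T ⊗ ℤ_(ℓ)`). -/
theorem result {k : Type u} [Field k] [IsAlgClosed k] {𝒱 : VarClass k} {ops : CycleOps 𝒱}
    (hops : PreservesIntegral ops) (W : WeilCohomology.{u, v} ops) (X : 𝒱.Obj) (hX : 1 ≤ X.dim)
    (D : X.Cycles) (hD : X.IsCyc 1 D) (hDint : IsIntegral X D) (hHL : HardLefschetz W X D)
    (hH : ∀ Y E, IsPower ops X D Y E → HodgeType W Y E)
    (hE : ∀ N : ℕ, ∃ ℓ > N, ℓ.Prime ∧ ∃ S : IntegralStructure W X ℓ, S.IsGood D) :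
    List.TFAE [
      ∀ Y E, IsPower ops X D Y E → HomEqNum W Y,
      HomEqNum W (X.prod X),
      ∃ N : ℕ, ∀ ℓ > N, ℓ.Prime → ∀ (S : IntegralStructure W X ℓ) (p : ℕ), S.NumHomMod p,
      ∃ ℓ > X.dim + 1, ℓ.Prime ∧ ∃ S : IntegralStructure W X ℓ, S.IsGood D ∧
        S.NumHomMod (X.dim + 1),
      ∃ ℓ, ℓ.Prime ∧ ∃ S : IntegralStructure W X ℓ, S.IsGood D ∧
        ∀ c, 1 ≤ c → c ≤ X.dim → S.NumHomMod (X.dim + c)] :=
  d_mod hops hX hD hDint hHL hH hE

end Pool.Agent.Results.MP_f569db_ag.OneCodimensionOnePrime
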