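import Pool.Agent.H844.Stab.Trans

/-!
# The conjecture D for the powers of a variety, semisimplicity and cancellation

`W` is a Weil cohomology theory with an algebraically closed coefficient field `K` (of
characteristic zero) on a class of smooth proper varieties over a field `k` of any characteristic,
closed under products; for example `l`-adic cohomology with coefficients in an algebraic closure of
`ℚ_l`. Algebraic classes are the `K`-linear combinations of the classes of algebraic cycles
(`IsAlg`), and `pX X X n` is the product of `n + 1` copies of `X`. It is assumed that the
sign operator of `X` (the operator `(-1)^i` on `H^i(X)`) is algebraic (`SignAlg`); this is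
known for abelian varieties, and for all varieties over an algebraic closure of a finite field
(Katz, Messing).

Let `G` be the group of all linear automorphisms of `H(X)` that fix all algebraic classes on all
powers of `X` (`StabElt`).

**Theorem.** Homological and numerical equivalence coincide on all powers of `X` (`HomEqNum`) if
and only if the following two conditions hold.

* Cancellation (`Cancels`): if the external product `τ × x` is algebraic, for an algebraic class
  `τ ≠ 0` on a power of `X` and a class `x` on a power of `X`, then `x` is algebraic.
* Semisimplicity (`StabSemisimple`): the group `G` acts semisimply on the cohomology of all powers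
  of `X`.

The proof uses that each class fixed by `G` is algebraic up to a nonzero algebraic factor
(`Pool.Agent.H844.Stab.exists_tau_inv`, unconditional), and that, given D, the projection to
the algebraic classes preserves all `G`-stable subspaces (`Pool.Agent.H844.Stab.proj_mem_stable`),
which is shown without the theory of reductive groups.
-/

open CategoryTheory AlgebraicGeometry

universe u v

namespace Pool.Agent.Results.MP_f569db_ag.SemisimpleAndCancels

open Pool.Agent.H914 Pool.Agent.H914.VarClass Pool.Agent.H914.VarClass.Obj
  Pool.Agent.H914.WeilCohomology Pool.Agent.R908 Pool.Agent.H281R3.HT Pool.Agent.H844.Stab

variable {k : Type u} [Field k] {𝒱 : VarClass k} {ops : CycleOps 𝒱}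

/-- **Homological and numerical equivalence coincide on all powers of `X` if and only if nonzero
algebraic factors can be cancelled and the stabiliser of the algebraic classes acts
semisimply.** -/
theorem result (W : WeilCohomology.{u, v} ops) [IsAlgClosed W.K] (X : 𝒱.Obj)
    (hX : SignAlg W X) :
    (∀ n, HomEqNum W (pX X X n)) ↔ (Cancels W X ∧ StabSemisimple W X) :=
  D_iff_stab hX

end Pool.Agent.Results.MP_f569db_ag.SemisimpleAndCancels
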