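import Pool.Agent.H857.MX.Master
import Pool.Agent.H857.MX.HomNum

/-!
# MP_f569db_ag: the standard conjecture D for `A × Z`, in every codimension, for arbitrary
varieties `Z` and all abelian varieties `A` but a set of isogeny classes of the exact order of
magnitude of its size

Let `g i` (`i` in a finite set `I`) be positive integers. For a prime power `q = p ^ a` let
`families g p a` be the finite set of the families `f i` of Weil polynomials of degrees `2 g i`
relative to `q` with integral Newton polygons. It contains the families of the characteristic
polynomials of the Frobenius endomorphisms of abelian varieties `A i` of dimensions `g i` over the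
field with `q` elements (Weil), which determine the `A i` up to isogeny (Tate). It has about `q ^
(∑ g i (g i + 1) / 4)` elements.

Let `Z` be any smooth projective variety over the field with `q` elements, and let the `ρ k` be
the eigenvalues of its Frobenius endomorphism on the cohomology. (More generally, let the `ρ k` be
any `r` Weil numbers of weights less than `c` with slopes in `(1 / D) ℤ`.) The family `f` is
exceptional if there is a multiplicative relation between roots of the `f i`, the numbers `ρ k`
and `q`, up to roots of unity, which does not come from the pairs of conjugate roots `z`, `q / z`.

1. The proportion of the exceptional families among all the families is of the exact order of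
magnitude `∑ q ^ (- δ (g i) / 2)`, where `δ (g) = g` for `g ≠ 2` and `δ (2) = 1`: it is at most
`C` times, and at least `1 / C` times this sum. The constant `C` depends only on the `g i`, on
`r`, `c` and `D` - not on `p`, `q` and the `ρ k`.

2. For all families `f` which are not exceptional, for all `s > 0`, all abelian varieties `A` over
the field with `Q = q ^ s` elements which are isogenous to a product of powers of abelian
varieties `A i` with characteristic polynomials `f i`, all smooth projective varieties `Z'` over
the field with `Q` elements whose Frobenius eigenvalues lie, up to powers, in the group generated
by the `ρ k` and `q` (for instance `Z' = Z`, a power of `Z`, or a point), every Weil cohomology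
theory with algebraically closed coefficients, and all `c` (`HomNumReduces`): **homological and
numerical equivalence coincide for the cycles of codimension `c` on `A × Z'` if and only if they
coincide for the cycles of codimension `c - i` on `Z'` for all `0 ≤ i ≤ dim A`.** In particular `D
(A × Z')` is equivalent to `D (Z')`, it is true if `Z'` is a surface, and it is true in
codimension two on `A × Z'` if it is true in codimension two on `Z'`.

Nothing else is assumed on `Z'`: no conjecture of Lefschetz type, no Tate conjecture, no
semisimplicity of Frobenius. (The conjecture D is not known to be stable under products.) What is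
used of `A` are known theorems (`IsAbelian`): the cohomology is generated by `H^1`; Frobenius is
diagonalizable on `H^1` (Weil), with eigenvalues `z ^ s`, `z` a root of some `f i`; and the
theorem of Tate on divisors. The framework and the geometric part (`Y1.CT.kunneth_gen`,
`homNumIn_prod_iff`) are those of the earlier theorems of the library on CM types; there is also
`AlmostAllProducts`, where the exceptional set has a proportion `O (q ^ (-1 / 6) log q)`, without
a lower bound, and the Frobenius eigenvalues of `Z` generate a group of rank `r < g i`.
-/

set_option autoImplicit false

namespace Pool.Agent.Results.MP_f569db_ag.SharpExceptionalSet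

open Pool.Agent.H857.SX Pool.Agent.H857.MX

/-- **The exceptional set.** -/
theorem result {I : Type} [Fintype I] (g : I → ℕ) (hg : ∀ i, 0 < g i) (r D c : ℕ) (hD : 0 < D) :
    ∃ C : ℝ, 0 < C ∧ ∀ (p : ℕ) [Fact p.Prime] (a : ℕ), 0 < a →
      ((families g p a).Finite ∧
        ∏ i, Real.sqrt ((p : ℝ) ^ a) ^ (g i * (g i + 1) / 2) ≤ C * (families g p a).ncard ∧
        (families g p a).ncard ≤ C * ∏ i, Real.sqrt ((p : ℝ) ^ a) ^ (g i * (g i + 1) / 2)) ∧
      ∀ (w : Fin r → ℕ) (ρ : Fin r → ℂ), (∀ k, w k < c ∧ IsWeilNumber p a D (w k) (ρ k)) →
        (({f ∈ families g p a | ¬ Independent f (p ^ a) ρ}.ncard : ℝ) ≤
            C * (rate g ((p : ℝ) ^ a) * (families g p a).ncard) ∧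
          rate g ((p : ℝ) ^ a) * (families g p a).ncard ≤
            C * {f ∈ families g p a | ¬ Independent f (p ^ a) ρ}.ncard) ∧
        ∀ f ∈ families g p a, Independent f (p ^ a) ρ →
          HomNumReduces (RootsIn (Generated (p ^ a) ρ)) (p ^ a) f :=
  Pool.Agent.H857.MX.master g hg r D c hD (fun q f R => HomNumReduces (RootsIn R) q f)
    fun _ _ _ hq _ h0 hR => homNumReduces hq hR

end Pool.Agent.Results.MP_f569db_ag.SharpExceptionalSet
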